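import Mathlib
import Pool.Agent.W484.AH.VarMain

/-!
# The noncommutative Hodge conjecture for products with abelian varieties with complex
multiplication

`C` is an arbitrary admissible subcategory of `D_perf (X)`, `X` smooth and proper. `H 0` and `H 1`
are the Hodge structures `K_0^top (C) ⊗ ℚ` and `K_1^top (C) ⊗ ℚ`; `(D b).part p` is the subspace of
type `(p, *)` of `ℂ ⊗ H b` (Hochschild homology).

`A i` (`i` in a finite or infinite index set) are abelian varieties with complex multiplication by
the CM fields `K i`; the first cohomology group of `A i` is identified with `K i`, and `Φ` is the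
union of the CM types. We suppose that the Galois group of the compositum of the fields contains all
the sign changes (`SignChanges`): this holds for instance if the fields are independent and the Galois
groups of their Galois closures are as large as possible.

The category is `C ⊠ D_perf (A)`, an admissible subcategory of `D_perf (X × A)`, where `A` is a
product of powers of the `A i`. By the Künneth formula its Hodge structure `K_0^top ⊗ ℚ` is the sum
of the tensor products of `H b` and `K_b^top (A) ⊗ ℚ`, and `K_b^top (A) ⊗ ℚ` is the direct sum of
Tate twists of tensor products of the `H¹ (A i)`. By the polarizations `H¹ (A i)` is a Tate twist of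
its dual; so the Hodge classes are the Hodge forms `f` from `K (j 1) × ⋯ × K (j a)` to `H b`.

`base` is the space of the classes in `H b` which are in the image of `K_0 (C) ⊗ ℚ` (and all Hodge
classes for `b = 1`: there are none, since the weight is odd), `total a j` the space of classes which
are in the image of `K_0 (C ⊠ D_perf (A)) ⊗ ℚ`. Products of line bundles on `A` and objects of `C` give
`HasProducts`.

The theorem: there is a set `S` of at most `dim H 0 + dim H 1` indices such that, if all Hodge classes
of `C` are algebraic (the noncommutative Hodge conjecture for `C`), then all Hodge classes of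
`C ⊠ D_perf (A)` are algebraic for all products `A` of powers of abelian varieties `A i`, `i` not in
`S`. The number of exceptions depends only on the topological K-theory of `C`: for the Kuznetsov
components of cubic fourfolds it is at most `24`, and there the theorem is unconditional, as the
Hodge conjecture is known for cubic fourfolds.
-/

set_option autoImplicit false

open Module

namespace Pool.Agent.Results.MP_43e44c_ag.AlmostAllCMFactors

open Pool.Agent.W484.AH

theorem result {ι : Type} {K : ι → Type} [∀ i, Field (K i)] [∀ i, NumberField (K i)]
    [∀ i, NumberField.IsCMField (K i)] {Φ : Set (Emb K)} (hΦ : IsCMType Φ) (hS : SignChanges K)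
    (H : Fin 2 → Type) [∀ b, AddCommGroup (H b)] [∀ b, Module ℚ (H b)]
    [∀ b, Module.Finite ℚ (H b)] (D : ∀ b, HodgeData (H b)) :
    ∃ S : Finset ι, S.card ≤ finrank ℚ (H 0) + finrank ℚ (H 1) ∧
      ∀ (b : Fin 2) (base : Submodule ℚ (H b)) (total : Total K (H b)),
        HasProducts Φ base total → (∀ p h, (D b).IsClass p h → h ∈ base) →
        ∀ (c : ℤ) (a : ℕ) (j : Fin a → ι), (∀ t, j t ∉ S) →
          ∀ f : Form K j (H b), (D b).IsForm Φ c j f → f ∈ total a j := by
  obtain ⟨S, h1, h2⟩ := mainHodge hΦ hS H D
  exact ⟨S, by simpa [Fin.sum_univ_two] using h1, h2⟩

end Pool.Agent.Results.MP_43e44c_ag.AlmostAllCMFactors
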