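import Pool.Agent.W547.OC.Main

/-!
# The Hodge conjecture for abelian varieties of CM type: one class of codimension two for each CM type

Let `L` be a Galois CM field, `[L : ℚ] = 2 g`, and `B` an abelian variety of CM type whose field is
contained in `L` (for instance an elliptic curve whose field is an imaginary quadratic subfield of
`L`). Let `Ψ` be the CM type of `L` induced from `B`. For a CM type `Φ` of `L` and `ρ ∈ Φ`, `ρ ∉ Ψ`,
let `w(Φ, ρ)` be the class `Tr_{L/ℚ} (x₀ ∧ x₁ ∧ x₂ ∧ t)` of codimension two on
`A₀ × A₁ × A₂ × B`, where `A i` has CM type `(L, Φ i)`, `Φ 0 = Φ`, `Φ 0 ∩ Φ 1 = {ρ}`, and `Φ 2` meets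
`Ψ` exactly in the conjugate of `ρ`.

Let `T` be any system of classes on abelian varieties of CM type which contains the classes of degree
zero and the Hodge classes of degree two and is closed under linear combinations, cup products,
pull-backs and push-forwards along projections: for instance the algebraic classes. Then the
following are equivalent.

* All Hodge classes, of all degrees, on all abelian varieties `X` of CM type with fields contained in
  `L` (arbitrary finite products and powers) belong to `T`.
* For every CM type `Φ` of `L` which differs from `Ψ` in `n` places, `2 ≤ n ≤ (g + 1) / 2`, there is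
  a `ρ` for which the single class `w(Φ, ρ)` belongs to `T`.

So the Hodge conjecture for these infinitely many abelian varieties, in all codimensions, is
equivalent to the algebraicity of finitely many explicit classes of codimension two, one for each
CM type `Φ` in the lower half of the types (ordered by their distance from `Ψ`). Every abelian variety
of CM type is of this kind for some `L`.

The proof. Over `L` the Hodge classes are spanned by monomials, that is by balanced multisets of CM
types of `L`. One class `w(Φ, ρ)` and its translates by multiplications span all monomials with the
types `Φ, Φ₁, Φ₂, Ψ`; Galois conjugation gives the complementary multisets, and pairs of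
complementary types can be removed by push-forward. From one `ρ` for each `Φ` at distance
`≤ (g + 1) / 2` one gets the comparison of `Φ` with `Ψ` by induction on the distance; two
complementary types in the middle give the comparison of `Ψ` with its complement, and so the
comparison of all types with `Ψ`, and all exchanges of one pair of embeddings between any two types;
these generate all balanced multisets.
-/

namespace Pool.Agent.Results.MP_43e44c_ag.ClassPerCMType

open NumberField Pool.Agent.W547.KB Pool.Agent.W547.OC Pool.Agent.H204R3.CM

/-- `T` any system of classes with the closure properties of algebraic classes, `B` any CM type whose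
field is embedded by `ι` into the Galois CM field `L`. -/
theorem result (T : CycleTheory) (B : CMPair) (L : Type) [Field L] [NumberField L] [IsCMField L]
    [IsGalois ℚ L] (ι : B.E →+* L) :
    (∀ X : CMAV, SplitBy L X → ∀ (κ : Type) [Finite κ] (f : X.H1 [⋀^κ]→ₗ[ℚ] ℚ),
      IsHodge X.per f → T.alg X κ f) ↔
    (∀ Φ : Set (L →+* ℂ), IsCMType Φ → 2 ≤ (Φ \ inducedType B ι).ncard →
      (Φ \ inducedType B ι).ncard ≤ (Φ ∩ inducedType B ι).ncard + 1 →
        ∃ ρ ∈ Φ \ inducedType B ι, SpecialAlg T B L ι Φ ρ) :=
  hodge_iff_special T B L ι

end Pool.Agent.Results.MP_43e44c_ag.ClassPerCMType
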